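import Pool.Agent.W785.FD.Stms

/-! Project FD, part FD-POT1: telescoping bound by the potential. -/

set_option autoImplicit false

open MeasureTheory Metric Set Filter
open scoped ENNReal NNReal Topology

namespace Pool.Agent.W490.FD

open Pool.Agent.W785.FD

variable {X : Type*} [MetricSpace X] [MeasurableSpace X]

lemma mean_sub_le {μ : Measure X} {D : ℝ} (hD : Dbl μ D) {u : X → ℝ} (hu : LI μ u) (z : X) {r : ℝ}
    (hr : 0 < r) (c : ℝ) : ENNReal.ofReal |mean μ u z r - c| ≤
      lav μ (fun y => ENNReal.ofReal |u y - c|) z r := by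
  have h0 := hD.pos z r hr
  have h1 := hD.fin z r
  have hreal : 0 < μ.real (ball z r) := ENNReal.toReal_pos h0.ne' h1.ne
  have hfin : IsFiniteMeasure (μ.restrict (ball z r)) := ⟨by simpa using h1⟩
  have hi : Integrable (fun y => u y - c) (μ.restrict (ball z r)) :=
    (hu z r).sub (integrable_const c)
  have e1 : mean μ u z r - c = (μ.real (ball z r))⁻¹ * ∫ y in ball z r, (u y - c) ∂μ := by
    unfold mean
    rw [setAverage_eq, integral_sub (hu z r) (integrable_const c), integral_const]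
    simp only [smul_eq_mul, measureReal_restrict_apply_univ]
    field_simp
  rw [e1, abs_mul, abs_of_pos (inv_pos.2 hreal), mul_comm, ← div_eq_mul_inv,
    ENNReal.ofReal_div_of_pos hreal]
  unfold lav
  have e2 : ENNReal.ofReal (μ.real (ball z r)) = μ (ball z r) := ENNReal.ofReal_toReal h1.ne
  rw [e2]
  apply ENNReal.div_le_div_right
  rw [← ofReal_integral_eq_lintegral_ofReal hi.abs (Eventually.of_forall fun y => abs_nonneg _)]
  exact ENNReal.ofReal_le_ofReal (abs_integral_le_integral_abs)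

lemma lav_half {μ : Measure X} {D : ℝ} (hD : Dbl μ D) (f : X → ℝ≥0∞) (z : X) {r : ℝ}
    (hr : 0 < r) : lav μ f z (r / 2) ≤ ENNReal.ofReal D * lav μ f z r := by
  unfold lav
  have h0 := hD.pos z (r / 2) (by linarith)
  have h1 := hD.fin z (r / 2)
  have h2 := hD.pos z r hr
  have h3 := hD.fin z r
  have h4 := hD.dbl z (r / 2) (by linarith)
  rw [show 2 * (r / 2) = r by ring] at h4
  have h5 : ∫⁻ y in ball z (r / 2), f y ∂μ ≤ ∫⁻ y in ball z r, f y ∂μ :=
    lintegral_mono_set (ball_subset_ball (by linarith))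
  rw [ENNReal.div_le_iff h0.ne' h1.ne]
  calc ∫⁻ y in ball z (r / 2), f y ∂μ ≤ ∫⁻ y in ball z r, f y ∂μ := h5
    _ = ((∫⁻ y in ball z r, f y ∂μ) / μ (ball z r)) * μ (ball z r) := by
        rw [ENNReal.div_mul_cancel h2.ne' h3.ne]
    _ ≤ ((∫⁻ y in ball z r, f y ∂μ) / μ (ball z r)) *
        (ENNReal.ofReal D * μ (ball z (r / 2))) := by gcongr
    _ = ENNReal.ofReal D * ((∫⁻ y in ball z r, f y ∂μ) / μ (ball z r)) * μ (ball z (r / 2)) := by
        ring

theorem main {X : Type*} [MetricSpace X] [ProperSpace X] [MeasurableSpace X] [BorelSpace X]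
    (μ : Measure X) (p D : ℝ) (hp : 1 < p) (hD : Dbl μ D) (h : S_LD μ) : S_POT1 μ p D := by
  intro K Λ hK hΛ u g hu hPP
  filter_upwards [h u hu] with z hz r hr
  set m : ℕ → ℝ := fun n => mean μ u z (r / 2 ^ n) with hm
  have hrn : ∀ n : ℕ, 0 < r / 2 ^ n := fun n => by positivity
  have hstep : ∀ i : ℕ, edist (m i) (m (i + 1)) ≤ ENNReal.ofReal (D * K) *
      (ENNReal.ofReal (r / 2 ^ i) * (lav μ (fun y => g y ^ p) z (Λ * (r / 2 ^ i))) ^ (1 / p)) := by
    intro i
    have e1 : r / 2 ^ (i + 1) = (r / 2 ^ i) / 2 := by rw [pow_succ]; field_simp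
    rw [edist_comm, edist_dist, Real.dist_eq]
    calc ENNReal.ofReal |m (i + 1) - m i| ≤
        lav μ (fun y => ENNReal.ofReal |u y - mean μ u z (r / 2 ^ i)|) z ((r / 2 ^ i) / 2) := by
          have := mean_sub_le hD hu z (hrn (i + 1)) (m i)
          rw [← e1]
          exact this
      _ ≤ ENNReal.ofReal D * osc μ u z (r / 2 ^ i) := lav_half hD _ z (hrn i)
      _ ≤ ENNReal.ofReal D * (ENNReal.ofReal (K * (r / 2 ^ i)) *
          (lav μ (fun y => g y ^ p) z (Λ * (r / 2 ^ i))) ^ (1 / p)) := by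
          gcongr
          exact hPP z _ (hrn i)
      _ = _ := by
          rw [ENNReal.ofReal_mul hK, ENNReal.ofReal_mul (by linarith [hD.one_le] : 0 ≤ D)]
          ring
  have hsum : ∀ n : ℕ, edist (m 0) (m n) ≤ ENNReal.ofReal (D * K) * Pot μ p g Λ r z := by
    intro n
    calc edist (m 0) (m n) ≤ ∑ i ∈ Finset.range n, edist (m i) (m (i + 1)) :=
          edist_le_range_sum_edist m n
      _ ≤ ∑ i ∈ Finset.range n, ENNReal.ofReal (D * K) *
      (ENNReal.ofReal (r / 2 ^ i) * (lav μ (fun y => g y ^ p) z (Λ * (r / 2 ^ i))) ^ (1 / p)) :=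
          Finset.sum_le_sum fun i _ => hstep i
      _ ≤ _ := by
          rw [← Finset.mul_sum]
          unfold Pot
          gcongr
          exact ENNReal.sum_le_tsum _
  have hlim : Tendsto m atTop (𝓝 (u z)) := by
    rw [tendsto_iff_edist_tendsto_0]
    have hr0 : Tendsto (fun n : ℕ => r / 2 ^ n) atTop (𝓝[>] 0) := by
      rw [tendsto_nhdsWithin_iff]
      refine ⟨?_, Eventually.of_forall fun n => hrn n⟩
      have := (tendsto_pow_atTop_nhds_zero_of_lt_one (r := (1 / 2 : ℝ)) (by norm_num)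
        (by norm_num)).const_mul r
      rw [mul_zero] at this
      refine this.congr fun n => ?_
      rw [one_div, inv_pow, div_eq_mul_inv]
    refine tendsto_of_tendsto_of_tendsto_of_le_of_le tendsto_const_nhds (hz.comp hr0)
      (fun n => zero_le) fun n => ?_
    rw [edist_dist, Real.dist_eq]
    exact mean_sub_le hD hu z (hrn n) (u z)
  have hfin : edist (m 0) (u z) ≤ ENNReal.ofReal (D * K) * Pot μ p g Λ r z :=
    le_of_tendsto' (tendsto_const_nhds.edist hlim) hsum
  rw [edist_comm, edist_dist, Real.dist_eq] at hfin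
  simpa [hm] using hfin

end Pool.Agent.W490.FD
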